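import Pool.Agent.helper24.ISL.Spec2

set_option autoImplicit false

namespace Pool.Agent.ISL

open Matrix Filter Topology

/-- the pair of linear forms -/
def BS_A {n : ℕ} (φ φ' : Fin n → ℚ) : (Fin n → ℚ) →ₗ[ℚ] ℚ × ℚ where
  toFun v := (φ ⬝ᵥ v, φ' ⬝ᵥ v)
  map_add' v w := by simp [dotProduct_add]
  map_smul' c v := by simp [dotProduct_smul]

theorem BS_ker {n : ℕ} {φ φ' : Fin n → ℚ} {v : Fin n → ℚ} :
    v ∈ LinearMap.ker (BS_A φ φ') ↔ φ ⬝ᵥ v = 0 ∧ φ' ⬝ᵥ v = 0 := by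
  rw [LinearMap.mem_ker]
  show (φ ⬝ᵥ v, φ' ⬝ᵥ v) = 0 ↔ _
  rw [Prod.mk_eq_zero]

theorem BS : BS_stmt := by
  intro n hn e φ e' φ' h1 h2 h3 h4
  obtain ⟨m, rfl⟩ : ∃ m, n = m + 2 := ⟨n - 2, by omega⟩
  have hsurj : LinearMap.range (BS_A φ φ') = ⊤ := by
    rw [LinearMap.range_eq_top]
    rintro ⟨a, b⟩
    refine ⟨(b / (φ' ⬝ᵥ e)) • e + (a / (φ ⬝ᵥ e')) • e', ?_⟩
    show (φ ⬝ᵥ _, φ' ⬝ᵥ _) = (a, b)
    rw [dotProduct_add, dotProduct_add, dotProduct_smul, dotProduct_smul, dotProduct_smul,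
      dotProduct_smul, h1, h2]
    simp only [smul_eq_mul, mul_zero, zero_add, add_zero]
    rw [div_mul_cancel₀ _ h3, div_mul_cancel₀ _ h4]
  have hfin : Module.finrank ℚ (LinearMap.ker (BS_A φ φ')) = m := by
    have h5 := LinearMap.finrank_range_add_finrank_ker (BS_A φ φ')
    rw [hsurj, finrank_top, Module.finrank_prod, Module.finrank_self, Module.finrank_fin_fun] at h5
    omega
  let w := Module.finBasisOfFinrankEq ℚ (LinearMap.ker (BS_A φ φ')) hfin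
  let f : Fin (m + 2) → (Fin (m + 2) → ℚ) :=
    Fin.cons e (Fin.cons ((φ ⬝ᵥ e')⁻¹ • e') (fun j => (w j : Fin (m + 2) → ℚ)))
  let X : Mat (m + 2) ℚ := Matrix.of (fun i j => f j i)
  have hX : Function.Surjective X.mulVec := by
    intro v
    let a := φ ⬝ᵥ v
    let b := (φ' ⬝ᵥ e)⁻¹ * (φ' ⬝ᵥ v)
    have hu : v - b • e - a • ((φ ⬝ᵥ e')⁻¹ • e') ∈ LinearMap.ker (BS_A φ φ') := by
      rw [BS_ker]
      constructor
      · rw [dotProduct_sub, dotProduct_sub, dotProduct_smul, dotProduct_smul, dotProduct_smul, h1]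
        simp only [smul_eq_mul, mul_zero, sub_zero]
        rw [inv_mul_cancel₀ h3, mul_one, sub_self]
      · rw [dotProduct_sub, dotProduct_sub, dotProduct_smul, dotProduct_smul, dotProduct_smul, h2]
        simp only [smul_eq_mul, mul_zero, sub_zero]
        show φ' ⬝ᵥ v - (φ' ⬝ᵥ e)⁻¹ * (φ' ⬝ᵥ v) * (φ' ⬝ᵥ e) = 0
        field_simp
        ring
    refine ⟨Fin.cons b (Fin.cons a (fun j => w.repr ⟨_, hu⟩ j)), ?_⟩
    have hs := congrArg (fun z : LinearMap.ker (BS_A φ φ') => (z : Fin (m + 2) → ℚ)) (w.sum_repr ⟨_, hu⟩)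
    funext i
    have hsi := congrFun hs i
    simp only [Submodule.coe_sum, Submodule.coe_smul, Finset.sum_apply, Pi.smul_apply, smul_eq_mul,
      Pi.sub_apply] at hsi
    show ∑ j, X i j * _ = v i
    rw [Fin.sum_univ_succ, Fin.sum_univ_succ]
    simp only [X, f, Matrix.of_apply, Fin.cons_zero, Fin.cons_succ, Pi.smul_apply, smul_eq_mul]
    have e1 : ∑ j : Fin m, (w j : Fin (m + 2) → ℚ) i * w.repr ⟨_, hu⟩ j =
        ∑ j : Fin m, w.repr ⟨_, hu⟩ j * (w j : Fin (m + 2) → ℚ) i :=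
      Finset.sum_congr rfl fun j _ => mul_comm _ _
    rw [e1, hsi]
    ring
  obtain ⟨Y, hY⟩ := Matrix.mulVec_surjective_iff_exists_right_inverse.1 hX
  refine ⟨X, Y, hY, 0, 1, by simp [Fin.ext_iff], ?_, ?_, ?_, ?_⟩
  · rw [Matrix.mulVec_single_one]
    rfl
  · rw [Matrix.mulVec_single_one]
    rfl
  · funext j
    show φ ⬝ᵥ (f j) = _
    refine Fin.cases ?_ (fun j => ?_) j
    · simp [f, h1, Pi.single_apply]
    · refine Fin.cases ?_ (fun j => ?_) j
      · simp [f, dotProduct_smul, Pi.single_apply, h3]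
      · have := (BS_ker.1 (w j).2).1
        simp [f, this, Pi.single_apply, Fin.ext_iff]
  · funext j
    show φ' ⬝ᵥ (f j) = _
    refine Fin.cases ?_ (fun j => ?_) j
    · simp [f, Pi.single_apply]
    · refine Fin.cases ?_ (fun j => ?_) j
      · simp [f, dotProduct_smul, Pi.single_apply, h2]
      · have := (BS_ker.1 (w j).2).2
        simp [f, this, Pi.single_apply, Fin.ext_iff]

end Pool.Agent.ISL
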